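import Pool.Agent.Lib.MP_af3a4a_an.P1.CHK.DATA.N36x37.K0
import Pool.Agent.Lib.MP_af3a4a_an.P1.CHK.DATA.N36x37.K1
import Pool.Agent.Lib.MP_af3a4a_an.P1.CHK.DATA.N36x37.K2
import Pool.Agent.Lib.MP_af3a4a_an.P1.CHK.DATA.N36x37.K3

/-! glue for 36 <= N <= 37 (generated) -/

set_option autoImplicit false
set_option maxRecDepth 100000

namespace Pool.Agent.Lib.MP_af3a4a_an.P1.CHK.DATA.N36x37

open BOX

theorem g0 : ChunkP 36 37 0 512 0 101 0 2484 := ChunkP.g k0 k1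
theorem g1 : ChunkP 36 37 512 1024 64 80 1200 2484 := ChunkP.r k7 k8
theorem g2 : ChunkP 36 37 512 1024 64 80 1152 2484 := ChunkP.R k6 g1
theorem g3 : ChunkP 36 37 512 1024 64 80 864 2484 := ChunkP.R k5 g2
theorem g4 : ChunkP 36 37 512 1024 64 80 720 2484 := ChunkP.R k4 g3
theorem g5 : ChunkP 36 37 512 1024 64 80 0 2484 := ChunkP.R k3 g4
theorem g6 : ChunkP 36 37 768 1024 80 88 1632 2484 := ChunkP.r k19 k20
theorem g7 : ChunkP 36 37 768 1024 80 88 1584 2484 := ChunkP.R k18 g6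
theorem g8 : ChunkP 36 37 768 1024 80 88 1488 2484 := ChunkP.R k17 g7
theorem g9 : ChunkP 36 37 768 1024 80 88 1344 2484 := ChunkP.R k16 g8
theorem g10 : ChunkP 36 37 768 1024 80 96 1344 2484 := ChunkP.g g9 k21
theorem g11 : ChunkP 36 37 768 1024 80 96 1296 2484 := ChunkP.R k15 g10
theorem g12 : ChunkP 36 37 768 1024 80 96 1200 2484 := ChunkP.R k14 g11
theorem g13 : ChunkP 36 37 512 1024 80 96 1200 2484 := ChunkP.r k13 g12
theorem g14 : ChunkP 36 37 512 1024 80 96 1152 2484 := ChunkP.R k12 g13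
theorem g15 : ChunkP 36 37 512 1024 80 96 816 2484 := ChunkP.R k11 g14
theorem g16 : ChunkP 36 37 512 1024 80 96 720 2484 := ChunkP.R k10 g15
theorem g17 : ChunkP 36 37 512 1024 80 96 0 2484 := ChunkP.R k9 g16
theorem g18 : ChunkP 36 37 512 1024 64 96 0 2484 := ChunkP.g g5 g17
theorem g19 : ChunkP 36 37 512 1024 64 101 0 2484 := ChunkP.g g18 k22
theorem g20 : ChunkP 36 37 512 1024 0 101 0 2484 := ChunkP.g k2 g19
theorem g21 : ChunkP 36 37 0 1024 0 101 0 2484 := ChunkP.r g0 g20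
theorem g22 : ChunkP 36 37 1024 1280 64 80 1392 2484 := ChunkP.g k31 k32
theorem g23 : ChunkP 36 37 1024 1280 64 80 1344 2484 := ChunkP.R k30 g22
theorem g24 : ChunkP 36 37 1024 1280 64 80 1296 2484 := ChunkP.R k29 g23
theorem g25 : ChunkP 36 37 1024 1280 64 80 1200 2484 := ChunkP.R k28 g24
theorem g26 : ChunkP 36 37 1024 1280 64 80 1008 2484 := ChunkP.R k27 g25
theorem g27 : ChunkP 36 37 1024 1280 64 80 576 2484 := ChunkP.R k26 g26
theorem g28 : ChunkP 36 37 1024 1536 64 80 576 2484 := ChunkP.r g27 k33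
theorem g29 : ChunkP 36 37 1024 1536 64 80 480 2484 := ChunkP.R k25 g28
theorem g30 : ChunkP 36 37 1024 1536 64 80 0 2484 := ChunkP.R k24 g29
theorem g31 : ChunkP 36 37 1024 1536 80 96 576 2484 := ChunkP.r k36 k37
theorem g32 : ChunkP 36 37 1024 1536 80 96 480 2484 := ChunkP.R k35 g31
theorem g33 : ChunkP 36 37 1024 1536 80 96 0 2484 := ChunkP.R k34 g32
theorem g34 : ChunkP 36 37 1024 1536 64 96 0 2484 := ChunkP.g g30 g33
theorem g35 : ChunkP 36 37 1024 1536 64 101 0 2484 := ChunkP.g g34 k38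
theorem g36 : ChunkP 36 37 1024 1536 0 101 0 2484 := ChunkP.g k23 g35
theorem g37 : ChunkP 36 37 1536 2048 0 101 0 2484 := ChunkP.g k39 k40
theorem g38 : ChunkP 36 37 1024 2048 0 101 0 2484 := ChunkP.r g36 g37
theorem g39 : ChunkP 36 37 0 2048 0 101 0 2484 := ChunkP.r g21 g38
theorem g40 : ChunkP 36 37 2048 3072 0 101 0 2484 := ChunkP.r k41 k42
theorem g41 : ChunkP 36 37 2048 4096 0 101 0 2484 := ChunkP.r g40 k43
theorem g42 : ChunkP 36 37 0 4096 0 101 0 2484 := ChunkP.r g39 g41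

/-- the whole box -/
theorem allBox : ChunkP 36 37 0 4096 0 101 0 2484 := g42

theorem full {N : ℕ} (hNa : 36 ≤ N) (hNb : N ≤ 37) {z w : Fin N → ℂ} {R : ℝ} {σ : Fin N → ℂ}
    (hC : Pool.Agent.Lib.MP_af3a4a_an.P1.H80.Cfg2 N z w R σ) : ((2484 : ℕ) : ℝ) / 1024 < R := ChunkP.full allBox hNa hNb hC

end Pool.Agent.Lib.MP_af3a4a_an.P1.CHK.DATA.N36x37
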